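import Mathlib
import Pool.Agent.Lib_helper82.SchRE

/-!
# Schaeffer words on every group form a complete recursively enumerable set

No algorithm decides whether a word is a Schaeffer word on every group; more precisely the set of
these words is recursively enumerable and every recursively enumerable set is many-one reducible
to it.
-/

set_option autoImplicit false

universe u

namespace Pool.Agent.Results.MP_5f7953_lc.SchaefferWordsComplete

/-- Words: finite strings of variables and their formal inverses; the letter `(i, true)` is the
variable `x_i` and `(i, false)` is its formal inverse. -/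
abbrev Word : Type := List (ℕ × Bool)

/-- The value of a word on a group: `x_i` is evaluated as `f i`. -/
def value {G : Type u} [Group G] (f : ℕ → G) (w : Word) : G :=
  (w.map fun a => if a.2 = true then f a.1 else (f a.1)⁻¹).prod

/-- Two words are identically equal on `G` if they define the same operation on `G`. -/
def IdenticallyEqual (G : Type u) [Group G] (A A' : Word) : Prop :=
  ∀ f : ℕ → G, value f A = value f A'

/-- The formal inverse of a word. -/
def formalInverse (w : Word) : Word := (w.map fun a => (a.1, !a.2)).reverse

/-- The result of replacing each variable `x_i` of the word by the word `σ i`. -/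
def substitute (σ : ℕ → Word) (w : Word) : Word :=
  w.flatMap fun a => if a.2 = true then σ a.1 else formalInverse (σ a.1)

/-- `A` is expressible on `G` in the words of the set `Bs`: it is obtained from these words and
the single variables by substitutions and replacements by identically equal words. -/
inductive Expressible (G : Type u) [Group G] (Bs : Set Word) : Word → Prop
  | given (B : Word) : B ∈ Bs → Expressible G Bs B
  | single (i : ℕ) : Expressible G Bs [(i, true)]
  | substitution (A : Word) (σ : ℕ → Word) : Expressible G Bs A →
      (∀ a ∈ A, Expressible G Bs (σ a.1)) → Expressible G Bs (substitute σ A)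
  | replacement (A A' : Word) : Expressible G Bs A → IdenticallyEqual G A A' →
      Expressible G Bs A'

/-- `B` is a Schaeffer word on `G`: every word is expressible in `B` alone on `G`. -/
def SchaefferOn (G : Type u) [Group G] (B : Word) : Prop := ∀ A : Word, Expressible G {B} A

/-- `B` is a Schaeffer word on every group (of a given universe). -/
def SchaefferOnEveryGroup (B : Word) : Prop := ∀ (G : Type u) [Group G], SchaefferOn G B

open Pool.Agent.Lib_helper82

theorem value_eq {G : Type u} [Group G] (f : ℕ → G) (w : Word) :
    value f w = FreeGroup.lift f (FreeGroup.mk w) := by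
  rw [FreeGroup.lift_mk, value]
  congr 1
  refine List.map_congr_left fun a _ => ?_
  rcases a with ⟨i, b⟩
  cases b <;> rfl

theorem substitute_eq (σ : ℕ → Word) (w : Word) : FreeGroup.mk (substitute σ w) =
    FreeGroup.lift (fun i => FreeGroup.mk (σ i)) (FreeGroup.mk w) := by
  rw [← mk_flatMap, substitute]
  congr 2
  funext a
  rcases a with ⟨i, b⟩
  cases b <;> rfl

theorem replacement_mk (G : Type u) [Group G] {Bs : Set Word} {A A' : Word}
    (h : Expressible G Bs A) (he : FreeGroup.mk A = FreeGroup.mk A') : Expressible G Bs A' :=
  Expressible.replacement A A' h fun f => by rw [value_eq, value_eq, he]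

theorem schaeffer_of_complete {B : Word} (hB : Complete (FreeGroup.mk B)) :
    SchaefferOnEveryGroup.{u} B := by
  intro G _ A
  have hS : IsClone {C : FreeGroup ℕ | ∀ w : Word, FreeGroup.mk w = C →
      Expressible G {B} w} := by
    constructor
    · intro i w hw
      exact replacement_mk G (Expressible.single i) hw.symm
    · intro C hC σ hσ w hw
      have h1 : Expressible G {B} (substitute (fun i => (σ i).toWord) C.toWord) :=
        Expressible.substitution _ _ (hC _ FreeGroup.mk_toWord)
          fun a _ => hσ a.1 _ FreeGroup.mk_toWord
      refine replacement_mk G h1 ?_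
      rw [substitute_eq, hw, FreeGroup.mk_toWord]
      simp only [FreeGroup.mk_toWord]
  exact hB _ hS (fun w hw => replacement_mk G (Expressible.given B rfl) hw.symm)
    (FreeGroup.mk A) A rfl

theorem complete_of_schaeffer {B : Word} (hB : SchaefferOnEveryGroup.{u} B) :
    Complete (FreeGroup.mk B) := by
  intro S hS hBS A
  have key : ∀ w : Word, Expressible (ULift.{u} (FreeGroup ℕ)) {B} w → FreeGroup.mk w ∈ S := by
    intro w hw
    induction hw with
    | given B' h =>
      rw [Set.mem_singleton_iff] at h
      rw [h]
      exact hBS
    | single i => exact hS.var i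
    | substitution A σ _ _ ih1 ih2 =>
      classical
      have h1 := hS.sub _ ih1
        (fun i => if ∃ a ∈ A, a.1 = i then FreeGroup.mk (σ i) else FreeGroup.of i) (by
          intro i
          split_ifs with h
          · obtain ⟨a, ha, rfl⟩ := h
            exact ih2 a ha
          · exact hS.var i)
      rw [substitute_eq]
      have h2 : ∀ A' : Word, (∀ a ∈ A', ∃ a' ∈ A, a'.1 = a.1) →
          FreeGroup.lift (fun i => FreeGroup.mk (σ i)) (FreeGroup.mk A') =
          FreeGroup.lift (fun i => if ∃ a ∈ A, a.1 = i then FreeGroup.mk (σ i)
            else FreeGroup.of i) (FreeGroup.mk A') := by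
        intro A' hA'
        rw [FreeGroup.lift_mk, FreeGroup.lift_mk]
        congr 1
        refine List.map_congr_left fun a ha => ?_
        rw [if_pos (hA' a ha)]
      rw [h2 A fun a ha => ⟨a, ha, rfl⟩]
      exact h1
    | replacement A A' _ he ih =>
      have h1 := he fun i => ULift.up (FreeGroup.of i)
      rw [value_eq, value_eq] at h1
      have h2 : ∀ x : FreeGroup ℕ, (FreeGroup.lift (fun i => ULift.up.{u} (FreeGroup.of i)) x) =
          ULift.up x := by
        intro x
        have : FreeGroup.lift (fun i => ULift.up.{u} (FreeGroup.of i)) =
            (MulEquiv.ulift.symm : FreeGroup ℕ ≃* ULift.{u} (FreeGroup ℕ)).toMonoidHom := by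
          apply FreeGroup.ext_hom
          intro i
          rw [FreeGroup.lift_apply_of]
          rfl
        rw [this]
        rfl
      rw [h2, h2] at h1
      have h3 : FreeGroup.mk A = FreeGroup.mk A' := congrArg ULift.down h1
      rw [← h3]
      exact ih
  have h := key A.toWord (hB (ULift.{u} (FreeGroup ℕ)) A.toWord)
  rwa [FreeGroup.mk_toWord] at h

theorem schaeffer_iff (B : Word) : SchaefferOnEveryGroup.{u} B ↔ Complete (FreeGroup.mk B) :=
  ⟨complete_of_schaeffer, schaeffer_of_complete⟩

/-- There is no algorithm that decides whether a word is a Schaeffer word on every group; the set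
of these words is recursively enumerable, and every recursively enumerable set is many-one
reducible to it. -/
theorem result :
    ¬ ComputablePred SchaefferOnEveryGroup.{u} ∧
    REPred SchaefferOnEveryGroup.{u} ∧
    ∀ p : ℕ → Prop, REPred p → ManyOneReducible p SchaefferOnEveryGroup.{u} := by
  refine ⟨fun h => undecidable_complete (h.of_eq schaeffer_iff),
    complete_re.of_eq fun B => (schaeffer_iff B).symm, fun p hp => ?_⟩
  obtain ⟨F, hF, h⟩ := complete_hard hp
  exact ⟨F, hF, fun n => (h n).trans (schaeffer_iff (F n)).symm⟩

end Pool.Agent.Results.MP_5f7953_lc.SchaefferWordsComplete
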